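import Pool.Agent.Helper6.NX.GoalsB

/-!
# NX, packet PLAN: Plancherel bound
-/

set_option autoImplicit false
set_option linter.unusedSectionVars false

namespace Pool.Agent.Helper7.NX

open Matrix Equiv Pool.Agent.Helper15.An Pool.Agent.Helper6.NX
open scoped ComplexOrder

section general

variable {G : Type} [Group G] [Fintype G] [DecidableEq G]

theorem dim_trace (F : PW G) (x : G) :
    ∑ i, (F.D i : ℂ) * trace (F.ρ i x) = if x = 1 then (Fintype.card G : ℂ) else 0 := by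
  have h := F.col 1 x
  have h1 : ∀ i, trace (F.ρ i 1) = (F.D i : ℂ) := by
    intro i
    rw [map_one, trace_one, Fintype.card_fin]
  simp_rw [h1] at h
  rw [h]
  by_cases hx : x = 1
  · subst hx
    simp
  · rw [if_neg hx]
    have : Finset.univ.filter (fun y : G => 1 * y * x = y) = ∅ := by
      rw [Finset.filter_eq_empty_iff]
      intro y _ hy
      apply hx
      rw [one_mul] at hy
      simpa using hy
    rw [this]
    simp

/-- Plancherel formula. -/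
theorem planch (F : PW G) (a b : G → ℝ) :
    ∑ i, (F.D i : ℂ) * trace ((wop (F.ρ i) a)ᴴ * wop (F.ρ i) b) =
      (Fintype.card G : ℂ) * ∑ g, (a g : ℂ) * (b g : ℂ) := by
  have h1 : ∀ i, trace ((wop (F.ρ i) a)ᴴ * wop (F.ρ i) b) =
      ∑ g, ∑ h, ((a g : ℂ) * (b h : ℂ)) * trace (F.ρ i (g⁻¹ * h)) := by
    intro i
    unfold wop
    rw [conjTranspose_sum, Finset.sum_mul, trace_sum]
    refine Finset.sum_congr rfl fun g _ => ?_
    rw [Finset.mul_sum, trace_sum]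
    refine Finset.sum_congr rfl fun h _ => ?_
    rw [conjTranspose_smul, rho_conj (F.ρ i) (F.irr i).unit, star_trivial, Matrix.smul_mul,
      Matrix.mul_smul, ← map_mul, smul_smul, trace_smul, Complex.real_smul, Complex.ofReal_mul]
  simp_rw [h1, Finset.mul_sum]
  rw [Finset.sum_comm]
  refine Finset.sum_congr rfl fun g _ => ?_
  rw [Finset.sum_comm]
  have h2 : ∀ h, ∑ i, (F.D i : ℂ) * (((a g : ℂ) * (b h : ℂ)) * trace (F.ρ i (g⁻¹ * h))) =
      ((a g : ℂ) * (b h : ℂ)) * (if g⁻¹ * h = 1 then (Fintype.card G : ℂ) else 0) := by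
    intro h
    rw [← dim_trace F, Finset.mul_sum]
    refine Finset.sum_congr rfl fun i _ => ?_
    ring
  simp_rw [h2]
  rw [Finset.sum_eq_single g]
  · rw [inv_mul_cancel, if_pos rfl]
    ring
  · intro h _ hh
    rw [if_neg, mul_zero]
    intro h3
    exact hh (inv_mul_eq_one.1 h3).symm
  · intro h
    exact absurd (Finset.mem_univ g) h

theorem planch_re (F : PW G) (a b : G → ℝ) :
    ∑ i, (F.D i : ℝ) * (trace ((wop (F.ρ i) a)ᴴ * wop (F.ρ i) b)).re =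
      (Fintype.card G : ℝ) * ∑ g, a g * b g := by
  have h := congrArg Complex.re (planch F a b)
  rw [Complex.re_sum] at h
  have h1 : ((Fintype.card G : ℂ) * ∑ g, (a g : ℂ) * (b g : ℂ)) =
      (((Fintype.card G : ℝ) * ∑ g, a g * b g : ℝ) : ℂ) := by
    push_cast
    rfl
  rw [h1, Complex.ofReal_re] at h
  rw [← h]
  refine Finset.sum_congr rfl fun i _ => ?_
  have h2 : ((F.D i : ℂ)) = ((F.D i : ℝ) : ℂ) := by push_cast; rfl
  rw [h2, Complex.re_ofReal_mul]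

theorem wop_left {D : ℕ} (ρ : G →* Matrix (Fin D) (Fin D) ℂ) (Φ ω : G → ℝ)
    (hs : ∀ g, ω g⁻¹ = ω g) :
    wop ρ (fun π => ∑ w, ω w * Φ (w * π)) = wop ρ ω * wop ρ Φ := by
  unfold wop
  simp_rw [Finset.sum_smul]
  rw [Finset.sum_comm, Finset.sum_mul, ← Equiv.sum_comp (Equiv.inv G)]
  refine Finset.sum_congr rfl fun w _ => ?_
  simp only [Equiv.inv_apply]
  rw [Finset.mul_sum, ← Equiv.sum_comp (Equiv.mulLeft w)]
  refine Finset.sum_congr rfl fun π _ => ?_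
  rw [Equiv.coe_mulLeft, inv_mul_cancel_left, map_mul, hs, Matrix.smul_mul, Matrix.mul_smul,
    smul_smul]

theorem wop_right {D : ℕ} (ρ : G →* Matrix (Fin D) (Fin D) ℂ) (Φ ω : G → ℝ)
    (hs : ∀ g, ω g⁻¹ = ω g) :
    wop ρ (fun π => ∑ w, ω w * Φ (π * w)) = wop ρ Φ * wop ρ ω := by
  unfold wop
  simp_rw [Finset.sum_smul]
  rw [Finset.sum_comm, Finset.mul_sum, ← Equiv.sum_comp (Equiv.inv G)]
  refine Finset.sum_congr rfl fun w _ => ?_
  simp only [Equiv.inv_apply]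
  rw [Finset.sum_mul, ← Equiv.sum_comp (Equiv.mulRight w)]
  refine Finset.sum_congr rfl fun π _ => ?_
  rw [Equiv.coe_mulRight, mul_inv_cancel_right, map_mul, hs, Matrix.smul_mul, Matrix.mul_smul,
    smul_smul, mul_comm]

theorem diff_left (Φ ω : G → ℝ) (h1 : ∑ g, ω g = 1) :
    ∑ π, ∑ w, ω w * (Φ (w * π) - Φ π) ^ 2 =
      2 * (∑ π, Φ π * Φ π) - 2 * ∑ π, Φ π * ∑ w, ω w * Φ (w * π) := by
  have e1 : ∀ π, ∑ w, ω w * (Φ (w * π) - Φ π) ^ 2 =
      (∑ w, ω w * Φ (w * π) ^ 2) + Φ π * Φ π - 2 * (Φ π * ∑ w, ω w * Φ (w * π)) := by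
    intro π
    have : Φ π * Φ π = ∑ w, ω w * (Φ π * Φ π) := by rw [← Finset.sum_mul, h1, one_mul]
    rw [this, Finset.mul_sum, Finset.mul_sum, ← Finset.sum_add_distrib, ← Finset.sum_sub_distrib]
    refine Finset.sum_congr rfl fun w _ => ?_
    ring
  simp_rw [e1]
  rw [Finset.sum_sub_distrib, Finset.sum_add_distrib, ← Finset.mul_sum, Finset.sum_comm]
  have e2 : ∀ w, ∑ π, ω w * Φ (w * π) ^ 2 = ω w * ∑ π, Φ π * Φ π := by
    intro w
    rw [← Finset.mul_sum]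
    congr 1
    rw [← Equiv.sum_comp (Equiv.mulLeft w) (fun π => Φ π * Φ π)]
    refine Finset.sum_congr rfl fun π _ => ?_
    rw [Equiv.coe_mulLeft, sq]
  simp_rw [e2]
  rw [← Finset.sum_mul, h1]
  ring

theorem diff_right (Φ ω : G → ℝ) (h1 : ∑ g, ω g = 1) :
    ∑ π, ∑ w, ω w * (Φ (π * w) - Φ π) ^ 2 =
      2 * (∑ π, Φ π * Φ π) - 2 * ∑ π, Φ π * ∑ w, ω w * Φ (π * w) := by
  have e1 : ∀ π, ∑ w, ω w * (Φ (π * w) - Φ π) ^ 2 =
      (∑ w, ω w * Φ (π * w) ^ 2) + Φ π * Φ π - 2 * (Φ π * ∑ w, ω w * Φ (π * w)) := by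
    intro π
    have : Φ π * Φ π = ∑ w, ω w * (Φ π * Φ π) := by rw [← Finset.sum_mul, h1, one_mul]
    rw [this, Finset.mul_sum, Finset.mul_sum, ← Finset.sum_add_distrib, ← Finset.sum_sub_distrib]
    refine Finset.sum_congr rfl fun w _ => ?_
    ring
  simp_rw [e1]
  rw [Finset.sum_sub_distrib, Finset.sum_add_distrib, ← Finset.mul_sum, Finset.sum_comm]
  have e2 : ∀ w, ∑ π, ω w * Φ (π * w) ^ 2 = ω w * ∑ π, Φ π * Φ π := by
    intro w
    rw [← Finset.mul_sum]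
    congr 1
    rw [← Equiv.sum_comp (Equiv.mulRight w) (fun π => Φ π * Φ π)]
    refine Finset.sum_congr rfl fun π _ => ?_
    rw [Equiv.coe_mulRight, sq]
  simp_rw [e2]
  rw [← Finset.sum_mul, h1]
  ring

theorem psd_trace {D : ℕ} {A : Matrix (Fin D) (Fin D) ℂ} (h : A.PosSemidef) :
    0 ≤ (trace A).re := (Complex.nonneg_iff.1 h.trace_nonneg).1

/-- The comparison of the traces for one representation. -/
theorem tr_left {D : ℕ} (X W : Matrix (Fin D) (Fin D) ℂ) (c : ℝ)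
    (h : (c • (1 : Matrix (Fin D) (Fin D) ℂ) - W).PosSemidef) :
    (trace (Xᴴ * (W * X))).re ≤ c * (trace (Xᴴ * X)).re := by
  have h1 := psd_trace (h.conjTranspose_mul_mul_same X)
  have h2 : Xᴴ * (c • (1 : Matrix (Fin D) (Fin D) ℂ) - W) * X = c • (Xᴴ * X) - Xᴴ * (W * X) := by
    rw [Matrix.mul_sub, Matrix.sub_mul, Matrix.mul_smul, Matrix.mul_one, Matrix.smul_mul,
      Matrix.mul_assoc]
  rw [h2, trace_sub, trace_smul, Complex.sub_re, Complex.real_smul, Complex.re_ofReal_mul] at h1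
  linarith

theorem tr_right {D : ℕ} (X W : Matrix (Fin D) (Fin D) ℂ) (c : ℝ)
    (h : (c • (1 : Matrix (Fin D) (Fin D) ℂ) - W).PosSemidef) :
    (trace (Xᴴ * (X * W))).re ≤ c * (trace (Xᴴ * X)).re := by
  have h1 := psd_trace (h.mul_mul_conjTranspose_same X)
  have h2 : X * (c • (1 : Matrix (Fin D) (Fin D) ℂ) - W) * Xᴴ = c • (X * Xᴴ) - X * W * Xᴴ := by
    rw [Matrix.mul_sub, Matrix.sub_mul, Matrix.mul_smul, Matrix.mul_one, Matrix.smul_mul]
  rw [h2, trace_sub, trace_smul, Complex.sub_re, Complex.real_smul, Complex.re_ofReal_mul,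
    trace_mul_comm X Xᴴ, trace_mul_comm (X * W) Xᴴ] at h1
  linarith

end general

theorem wop_zero_of_triv {n : ℕ} (hn : 2 ≤ n) {D : ℕ}
    (ρ : Perm (Fin n) →* Matrix (Fin D) (Fin D) ℂ) (ht : Triv ρ (Alt n))
    (Φ : Perm (Fin n) → ℝ) (h1 : ∑ π, Φ π = 0)
    (h2 : ∑ π : Perm (Fin n), ((Perm.sign π : ℤ) : ℝ) * Φ π = 0) : wop ρ Φ = 0 := by
  obtain ⟨τ, hτ⟩ : ∃ τ : Perm (Fin n), Perm.sign τ = -1 := by
    refine ⟨Equiv.swap ⟨0, by omega⟩ ⟨1, by omega⟩, Perm.sign_swap ?_⟩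
    intro h
    simpa using congrArg Fin.val h
  have key : ∀ π : Perm (Fin n), ρ π =
      ((1 + ((Perm.sign π : ℤ) : ℝ)) / 2) • (1 : Matrix (Fin D) (Fin D) ℂ) +
      ((1 - ((Perm.sign π : ℤ) : ℝ)) / 2) • ρ τ := by
    intro π
    rcases Int.units_eq_one_or (Perm.sign π) with h | h
    · have h3 : ρ π = 1 := ht ⟨π, mem_Alt.2 h⟩
      rw [h3, h]
      simp
    · have h3 : ρ (τ⁻¹ * π) = 1 := ht ⟨τ⁻¹ * π, mem_Alt.2 (by
        rw [Perm.sign_mul, Perm.sign_inv, hτ, h]; rfl)⟩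
      have h4 : ρ π = ρ τ := by
        have : π = τ * (τ⁻¹ * π) := by group
        rw [this, map_mul, h3, Matrix.mul_one]
      rw [h4, h]
      norm_num
  unfold wop
  have e : ∀ π, Φ π • ρ π = ((Φ π + ((Perm.sign π : ℤ) : ℝ) * Φ π) / 2) •
      (1 : Matrix (Fin D) (Fin D) ℂ) +
      ((Φ π - ((Perm.sign π : ℤ) : ℝ) * Φ π) / 2) • ρ τ := by
    intro π
    rw [key π, smul_add, smul_smul, smul_smul]
    congr 2 <;> ring
  simp_rw [e]
  rw [Finset.sum_add_distrib, ← Finset.sum_smul, ← Finset.sum_smul, ← Finset.sum_div,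
    ← Finset.sum_div, Finset.sum_add_distrib, Finset.sum_sub_distrib, h1, h2]
  simp

theorem thmPLAN : Pool.Agent.Helper6.NX.S_PLAN := by
  intro n F Φ ω κ hn hω hκ hirr h1 h2
  set N : ℝ := (Fintype.card (Perm (Fin n)) : ℝ) with hN
  have hNpos : 0 < N := by rw [hN]; exact_mod_cast Fintype.card_pos
  have p0 := planch_re F Φ Φ
  have p1 := planch_re F Φ (fun π => ∑ w, ω w * Φ (w * π))
  have p2 := planch_re F Φ (fun π => ∑ w, κ w * Φ (π * w))
  simp_rw [fun i => wop_left (F.ρ i) Φ ω hω.symm] at p1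
  simp_rw [fun i => wop_right (F.ρ i) Φ κ hκ.symm] at p2
  have hi : ∀ i, (F.D i : ℝ) * (2 * (trace ((wop (F.ρ i) Φ)ᴴ * (wop (F.ρ i) ω * wop (F.ρ i) Φ))).re +
      2 * (trace ((wop (F.ρ i) Φ)ᴴ * (wop (F.ρ i) Φ * wop (F.ρ i) κ))).re) ≤
      (F.D i : ℝ) * (3 * (trace ((wop (F.ρ i) Φ)ᴴ * wop (F.ρ i) Φ)).re) := by
    intro i
    apply mul_le_mul_of_nonneg_left _ (Nat.cast_nonneg _)
    by_cases ht : Triv (F.ρ i) (Alt n)
    · rw [wop_zero_of_triv hn (F.ρ i) ht Φ h1 h2]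
      simp
    · have a1 := tr_left (wop (F.ρ i) Φ) (wop (F.ρ i) ω) 1 (one_sub_wop (F.ρ i) (F.irr i).unit hω)
      have a2 := tr_right (wop (F.ρ i) Φ) (wop (F.ρ i) κ) 1 (one_sub_wop (F.ρ i) (F.irr i).unit hκ)
      rcases hirr i ht with h3 | h3
      · have a3 := tr_left (wop (F.ρ i) Φ) (wop (F.ρ i) ω) _ h3
        linarith
      · have a3 := tr_right (wop (F.ρ i) Φ) (wop (F.ρ i) κ) _ h3
        linarith
  have hsum := Finset.sum_le_sum fun i (_ : i ∈ Finset.univ) => hi i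
  simp_rw [mul_add, mul_left_comm _ (2 : ℝ), mul_left_comm _ (3 : ℝ)] at hsum
  rw [Finset.sum_add_distrib, ← Finset.mul_sum, ← Finset.mul_sum, ← Finset.mul_sum, p0, p1, p2]
    at hsum
  rw [diff_left Φ ω hω.sum, diff_right Φ κ hκ.sum]
  have e : ∑ π, Φ π ^ 2 = ∑ π, Φ π * Φ π := Finset.sum_congr rfl fun π _ => sq _
  rw [e]
  have h5 : N * (2 * (∑ g, Φ g * ∑ w, ω w * Φ (w * g)) + 2 * (∑ g, Φ g * ∑ w, κ w * Φ (g * w))) ≤
      N * (3 * ∑ g, Φ g * Φ g) := by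
    calc _ = 2 * (N * ∑ g, Φ g * ∑ w, ω w * Φ (w * g)) +
          2 * (N * ∑ g, Φ g * ∑ w, κ w * Φ (g * w)) := by ring
      _ ≤ 3 * (N * ∑ g, Φ g * Φ g) := hsum
      _ = _ := by ring
  have h6 := le_of_mul_le_mul_left h5 hNpos
  linarith

end Pool.Agent.Helper7.NX
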